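import Pool.Agent.W2helper82.OA.Stm

/-!
# Piece P1: abstract finite product measures
-/

set_option autoImplicit false

namespace Pool.Agent.W2helper82.OA.P1

open H974 H12S Finset H984P H984N
open Pool.Agent.W2helper82.OA

lemma ok_ph : Ok ph := fun _ => ⟨by norm_num [ph], by norm_num [ph]⟩

/-- at `p = 1/2` all weights are equal -/
lemma Ex_ph (S : Finset Edg) (f : Finset Edg → ℝ) :
    Ex ph S f = (1 / 2 : ℝ) ^ S.card * ∑ F ∈ S.powerset, f F := by
  unfold Ex
  rw [Finset.mul_sum]
  refine Finset.sum_congr rfl fun F hF => ?_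
  have hFS := Finset.mem_powerset.mp hF
  have h1 : (∏ e ∈ F, ph e) * (∏ e ∈ S \ F, (1 - ph e)) = (1 / 2 : ℝ) ^ S.card := by
    have h2 : ∀ e : Edg, (1 - ph e) = 1 / 2 := fun e => by norm_num [ph]
    simp only [h2]
    rw [Finset.prod_const, Finset.prod_const, ← pow_add, Finset.card_sdiff_of_subset hFS,
      Nat.add_sub_cancel' (Finset.card_le_card hFS)]
  rw [h1]

theorem s_dec1 : S_DEC1 := by
  intro S R Φ hR hstop hΦ
  simp only [Ex_ph]
  have key : ∑ F ∈ S.powerset, ∑ G ∈ S.powerset, Φ F (G \ R F) =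
      ∑ F ∈ S.powerset, ∑ G ∈ S.powerset, Φ F (F \ R F) := by
    rw [← Finset.sum_product', ← Finset.sum_product']
    refine Finset.sum_bij' (fun q _ => ((q.1 ∩ R q.1) ∪ (q.2 \ R q.1), (q.2 ∩ R q.1) ∪
      (q.1 \ R q.1))) (fun q _ => ((q.1 ∩ R q.1) ∪ (q.2 \ R q.1), (q.2 ∩ R q.1) ∪
      (q.1 \ R q.1))) ?_ ?_ ?_ ?_ ?_
    · rintro ⟨F, G⟩ hq
      simp only [Finset.mem_product, Finset.mem_powerset] at hq ⊢
      exact ⟨Finset.union_subset (Finset.inter_subset_left.trans hq.1)
        (Finset.sdiff_subset.trans hq.2), Finset.union_subset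
        (Finset.inter_subset_left.trans hq.2) (Finset.sdiff_subset.trans hq.1)⟩
    · rintro ⟨F, G⟩ hq
      simp only [Finset.mem_product, Finset.mem_powerset] at hq ⊢
      exact ⟨Finset.union_subset (Finset.inter_subset_left.trans hq.1)
        (Finset.sdiff_subset.trans hq.2), Finset.union_subset
        (Finset.inter_subset_left.trans hq.2) (Finset.sdiff_subset.trans hq.1)⟩
    · rintro ⟨F, G⟩ hq
      simp only [Finset.mem_product, Finset.mem_powerset] at hq
      have h1 : F ∩ R F = ((F ∩ R F) ∪ (G \ R F)) ∩ R F := by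
        ext x; simp only [Finset.mem_inter, Finset.mem_union, Finset.mem_sdiff]; tauto
      have h2 : R ((F ∩ R F) ∪ (G \ R F)) = R F := hstop F _ hq.1
        (Finset.union_subset (Finset.inter_subset_left.trans hq.1)
        (Finset.sdiff_subset.trans hq.2)) h1
      simp only [h2]
      refine Prod.ext ?_ ?_
      · ext x; simp only [Finset.mem_inter, Finset.mem_union, Finset.mem_sdiff]; tauto
      · ext x; simp only [Finset.mem_inter, Finset.mem_union, Finset.mem_sdiff]; tauto
    · rintro ⟨F, G⟩ hq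
      simp only [Finset.mem_product, Finset.mem_powerset] at hq
      have h1 : F ∩ R F = ((F ∩ R F) ∪ (G \ R F)) ∩ R F := by
        ext x; simp only [Finset.mem_inter, Finset.mem_union, Finset.mem_sdiff]; tauto
      have h2 : R ((F ∩ R F) ∪ (G \ R F)) = R F := hstop F _ hq.1
        (Finset.union_subset (Finset.inter_subset_left.trans hq.1)
        (Finset.sdiff_subset.trans hq.2)) h1
      simp only [h2]
      refine Prod.ext ?_ ?_
      · ext x; simp only [Finset.mem_inter, Finset.mem_union, Finset.mem_sdiff]; tauto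
      · ext x; simp only [Finset.mem_inter, Finset.mem_union, Finset.mem_sdiff]; tauto
    · rintro ⟨F, G⟩ hq
      simp only [Finset.mem_product, Finset.mem_powerset] at hq
      have h1 : F ∩ R F = ((F ∩ R F) ∪ (G \ R F)) ∩ R F := by
        ext x; simp only [Finset.mem_inter, Finset.mem_union, Finset.mem_sdiff]; tauto
      have hF' : (F ∩ R F) ∪ (G \ R F) ⊆ S :=
        Finset.union_subset (Finset.inter_subset_left.trans hq.1)
        (Finset.sdiff_subset.trans hq.2)
      have h2 : R ((F ∩ R F) ∪ (G \ R F)) = R F := hstop F _ hq.1 hF' h1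
      simp only [h2]
      have h3 : ((F ∩ R F) ∪ (G \ R F)) \ R F = G \ R F := by
        ext x; simp only [Finset.mem_inter, Finset.mem_union, Finset.mem_sdiff]; tauto
      rw [h3]
      exact hΦ F _ _ hq.1 hF' h1
  rw [← Finset.mul_sum, key]
  simp only [Finset.sum_const, nsmul_eq_mul]
  rw [← Finset.mul_sum, Finset.card_powerset]
  push_cast
  rw [← mul_assoc ((1 / 2 : ℝ) ^ S.card) (2 ^ S.card), ← mul_pow]
  norm_num

theorem s_ite : S_ITE := by
  intro S J M E' good c hc0 hc1 hM hdis hgood hmain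
  induction J with
  | zero =>
    simp only [pow_zero, one_mul]
    exact Pr_mono ok_ph fun F _ h => h.1
  | succ J ih =>
    have ih' := ih (fun j hj => hM j (by omega)) (fun i hi j hj => hdis i (by omega) j (by omega))
      (fun j hj => hgood j (by omega)) (fun j hj => hmain j (by omega))
    have hS : S = (S \ M J) ∪ M J := by
      rw [Finset.sdiff_union_of_subset (hM J (by omega))]
    have hd : Disjoint (S \ M J) (M J) := Finset.sdiff_disjoint
    -- a configuration: `H` outside of `M J`, `A` inside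
    have hin : ∀ H, H ⊆ S \ M J → ∀ A, A ⊆ M J → ∀ j < J, (good j (H ∪ A) ↔ good j H) := by
      intro H hH A hA j hj
      have hHS : H ⊆ S := hH.trans Finset.sdiff_subset
      have hAS : A ⊆ S := hA.trans (hM J (by omega))
      rw [hgood j (by omega) (H ∪ A) (Finset.union_subset hHS hAS), hgood j (by omega) H hHS]
      have h1 : (H ∪ A) ∩ M j = H ∩ M j := by
        ext x
        simp only [Finset.mem_inter, Finset.mem_union]
        constructor
        · rintro ⟨h | h, h2⟩
          · exact ⟨h, h2⟩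
          · exact absurd (hA h) (Finset.disjoint_left.mp
              (hdis j (by omega) J (by omega) (by omega)) h2)
        · rintro ⟨h, h2⟩
          exact ⟨Or.inl h, h2⟩
      rw [h1]
    have hin2 : ∀ H, H ⊆ S \ M J → ∀ A, A ⊆ M J → (good J (H ∪ A) ↔ good J A) := by
      intro H hH A hA
      have hHS : H ⊆ S := hH.trans Finset.sdiff_subset
      have hAS : A ⊆ S := hA.trans (hM J (by omega))
      rw [hgood J (by omega) (H ∪ A) (Finset.union_subset hHS hAS), hgood J (by omega) A hAS]
      have h1 : (H ∪ A) ∩ M J = A ∩ M J := by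
        ext x
        simp only [Finset.mem_inter, Finset.mem_union]
        constructor
        · rintro ⟨h | h, h2⟩
          · exact absurd h2 (Finset.mem_sdiff.mp (hH h)).2
          · exact ⟨h, h2⟩
        · rintro ⟨h, h2⟩
          exact ⟨Or.inr h, h2⟩
      rw [h1]
    have hstep : Pr ph S (fun F => E' F ∧ ∀ j < J + 1, ¬ good j F) ≤
        (1 - c) * Pr ph S (fun F => E' F ∧ ∀ j < J, ¬ good j F) := by
      unfold Pr
      rw [hS, Ex_union hd, Ex_union hd, ← Ex_mul_left]
      refine Ex_mono ok_ph fun H hH => ?_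
      by_cases hb : ∀ j < J, ¬ good j H
      · have e1 : Ex ph (M J) (fun B => ind (E' (H ∪ B) ∧ ∀ j < J, ¬ good j (H ∪ B))) =
            Pr ph (M J) (fun A => E' (A ∪ H)) := by
          refine Pr_congr fun A hA => ?_
          rw [Finset.union_comm A H]
          constructor
          · exact fun h => h.1
          · intro h
            exact ⟨h, fun j hj => by rw [hin H hH A hA j hj]; exact hb j hj⟩
        have e2 : Ex ph (M J) (fun B => ind (E' (H ∪ B) ∧ ∀ j < J + 1, ¬ good j (H ∪ B))) ≤
            Pr ph (M J) (fun A => E' (A ∪ H) ∧ ¬ good J A) := by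
          refine Pr_mono ok_ph fun A hA h => ?_
          rw [Finset.union_comm A H]
          exact ⟨h.1, by rw [← hin2 H hH A hA]; exact h.2 J (by omega)⟩
        have e3 : Pr ph (M J) (fun A => E' (A ∪ H) ∧ ¬ good J A) +
            Pr ph (M J) (fun A => E' (A ∪ H) ∧ good J A) = Pr ph (M J) (fun A => E' (A ∪ H)) := by
          unfold Pr
          rw [← Ex_add]
          refine Ex_congr fun A _ => ?_
          rw [ind_and, ind_and, ind_not]
          ring
        rw [e1]
        have e4 := hmain J (by omega) H hH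
        linarith
      · have e1 : Ex ph (M J) (fun B => ind (E' (H ∪ B) ∧ ∀ j < J + 1, ¬ good j (H ∪ B))) ≤ 0 := by
          have : Ex ph (M J) (fun B => ind (E' (H ∪ B) ∧ ∀ j < J + 1, ¬ good j (H ∪ B))) =
              Ex ph (M J) (fun _ => 0) := by
            refine Ex_congr fun A hA => ind_not_of fun h => hb fun j hj => ?_
            rw [← hin H hH A hA j hj]
            exact h.2 j (by omega)
          rw [this, Ex_const]
        have e2 : 0 ≤ Ex ph (M J) (fun B => ind (E' (H ∪ B) ∧ ∀ j < J, ¬ good j (H ∪ B))) :=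
          Pr_nonneg ok_ph _ _
        exact e1.trans (mul_nonneg (by linarith) e2)
    calc _ ≤ _ := hstep
      _ ≤ (1 - c) * ((1 - c) ^ J * Pr ph S E') :=
          mul_le_mul_of_nonneg_left ih' (by linarith)
      _ = _ := by ring

theorem s_tri : S_TRI := by
  intro M I H E' Lam Rich hI hE hLam hLamI hEL hRich
  have hM : M = (M \ I) ∪ I := by rw [Finset.sdiff_union_of_subset hI]
  have hd : Disjoint (M \ I) I := Finset.sdiff_disjoint
  have hsd : ∀ A B, A ⊆ M \ I → B ⊆ I → (A ∪ B) \ I = A := by
    intro A B hA hB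
    ext x
    simp only [Finset.mem_sdiff, Finset.mem_union]
    constructor
    · rintro ⟨h | h, h2⟩
      · exact h
      · exact absurd (hB h) h2
    · intro h
      exact ⟨Or.inl h, (Finset.mem_sdiff.mp (hA h)).2⟩
  have hsub : ∀ A B, A ⊆ M \ I → B ⊆ I → A ∪ B ⊆ M := fun A B hA hB =>
    Finset.union_subset (hA.trans Finset.sdiff_subset) (hB.trans hI)
  -- the three functions
  set e : Finset Edg → ℝ := fun A => ind (E' (A ∪ H) ∧ Lam A) with he
  set r : Finset Edg → ℝ := fun A => Ex ph I (fun B => ind (Rich (A ∪ B))) with hr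
  have hei : Incr (M \ I) e := by
    intro A A' h1 h2
    refine ind_mono fun h => ⟨?_, ?_⟩
    · exact hE A A' h1 (h2.trans Finset.sdiff_subset) h.1
    · exact hLam A A' h1 (h2.trans Finset.sdiff_subset) h.2
  have hri : Incr (M \ I) r := by
    intro A A' h1 h2
    refine Ex_mono ok_ph fun B hB => ind_mono fun h => ?_
    refine hRich (A ∪ B) (A' ∪ B) (Finset.union_subset_union_left h1) (hsub _ _ h2 hB) ?_ h
    ext x
    simp only [Finset.mem_inter, Finset.mem_union]
    constructor
    · rintro ⟨h3 | h3, h4⟩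
      · exact absurd h4 (Finset.mem_sdiff.mp (h2 (h1 h3))).2
      · exact ⟨Or.inr h3, h4⟩
    · rintro ⟨h3 | h3, h4⟩
      · exact absurd h4 (Finset.mem_sdiff.mp (h2 h3)).2
      · exact ⟨Or.inr h3, h4⟩
  have h1 := harris ok_ph hei hri
  have h2 : Ex ph (M \ I) r = Pr ph M Rich := by
    unfold Pr
    conv_rhs => rw [hM, Ex_union hd]
  have h3 : Ex ph (M \ I) (fun A => e A * r A) ≤
      Pr ph M (fun A => E' (A ∪ H) ∧ (Lam A ∧ Rich A)) := by
    unfold Pr
    conv_rhs => rw [hM, Ex_union hd]
    refine Ex_mono ok_ph fun A hA => ?_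
    rw [hr]
    dsimp only
    rw [← Ex_mul_left]
    refine Ex_mono ok_ph fun B hB => ?_
    rw [he]
    dsimp only
    rw [← ind_and]
    refine ind_mono fun h => ⟨?_, ?_, h.2⟩
    · exact hE A (A ∪ B) Finset.subset_union_left (hsub A B hA hB) h.1.1
    · exact hLam A (A ∪ B) Finset.subset_union_left (hsub A B hA hB) h.1.2
  have h4 : Pr ph M Lam * Pr ph M (fun A => E' (A ∪ H)) ≤ Ex ph (M \ I) e := by
    have h5 : Pr ph M Lam * Pr ph M (fun A => E' (A ∪ H)) ≤
        Pr ph M (fun A => Lam A ∧ E' (A ∪ H)) := Pr_harris ok_ph hLam hE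
    refine h5.trans ?_
    unfold Pr
    conv_lhs => rw [hM, Ex_union hd]
    refine Ex_mono ok_ph fun A hA => ?_
    refine Ex_le_of_le ok_ph fun B hB => ind_mono fun h => ?_
    have h6 := hEL (A ∪ B) (hsub A B hA hB) h.2 h.1
    rw [hsd A B hA hB] at h6
    have h7 := (hLamI (A ∪ B) (hsub A B hA hB)).1 h.1
    rw [hsd A B hA hB] at h7
    exact ⟨h6, h7⟩
  have h5 : 0 ≤ Pr ph M Rich := Pr_nonneg ok_ph _ _
  calc Pr ph M Lam * Pr ph M Rich * Pr ph M (fun A => E' (A ∪ H))
      = Pr ph M Lam * Pr ph M (fun A => E' (A ∪ H)) * Pr ph M Rich := by ring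
    _ ≤ Ex ph (M \ I) e * Pr ph M Rich := mul_le_mul_of_nonneg_right h4 h5
    _ = Ex ph (M \ I) e * Ex ph (M \ I) r := by rw [h2]
    _ ≤ _ := h1.trans h3

end Pool.Agent.W2helper82.OA.P1
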