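import Pool.Agent.W2helper71.OA.P15
import Pool.Agent.W2helper93.OA.P1
import Pool.Agent.H974R2.Split

/-!
Piece P4 of project OA (helper82): `S_RSWD → S_NICE`.
-/

set_option autoImplicit false

namespace Pool.Agent.W2helper82.OA.P4

open H974 H12S Finset H984P H984N
open Pool.Agent.W2helper82.OA Pool.Agent.W2helper82.OA.P1 Pool.Agent.W2helper82.OA.P15

/-- the four rectangles of an annulus -/
def ann (z : Vtx) (r R : ℤ) : List (Finset Edg → Prop) :=
  [LRc (z.1 + r) (z.1 + R) (z.2 - R) (z.2 + R), LRc (z.1 - R) (z.1 - r) (z.2 - R) (z.2 + R),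
    TBc (z.1 - R) (z.1 + R) (z.2 + r) (z.2 + R), TBc (z.1 - R) (z.1 + R) (z.2 - R) (z.2 - r)]

lemma noX_of {z : Vtx} {r R : ℕ} (hr : r < R) {F : Finset Edg}
    (h : ∀ A ∈ ann z r R, ¬ A F) : NoX z r R F := by
  simp only [ann, List.forall_mem_cons] at h
  obtain ⟨h1, h2, h3, h4, -⟩ := h
  rintro a ⟨ha1, ha2, -⟩ b ⟨hb1, hb2, hb3⟩ hreach
  rw [abs_le] at ha1 ha2 hb1 hb2
  have hmono : Reach (↑F ∩ ↑(RE (z.1 - R) (z.1 + R) (z.2 - R) (z.2 + R))) a b := by
    refine hreach.mono (Set.inter_subset_inter_right _ ?_)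
    intro e he
    exact (Finset.mem_sdiff.mp he).1
  have hside : b.1 = z.1 + R ∨ b.1 = z.1 - R ∨ b.2 = z.2 + R ∨ b.2 = z.2 - R := by
    rcases hb3 with hb3 | hb3 <;> rcases abs_eq (by positivity) |>.mp hb3 with h | h <;> omega
  rcases hside with hb | hb | hb | hb
  · apply h1
    obtain ⟨y1, y2, k1, k2, k3, -⟩ := sub_LR (a := z.1 + r) (b := z.1 + R) (c := z.2 - R)
      (d := z.2 + R) (by omega)
      (by rintro x y ⟨-, h⟩ _ _; simp only [mem_coe, mem_RE_true] at h; omega)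
      (by rintro x y ⟨-, h⟩ _ _; simp only [mem_coe, mem_RE_false] at h; omega) hmono
      (by omega) (by omega)
    exact ⟨y1, y2, k1, k2, k3.mono (by rintro e ⟨⟨h7, -⟩, h8⟩; exact ⟨h7, h8⟩)⟩
  · apply h2
    obtain ⟨y1, y2, k1, k2, k3, -⟩ := sub_LR (a := z.1 - R) (b := z.1 - r) (c := z.2 - R)
      (d := z.2 + R) (by omega)
      (by rintro x y ⟨-, h⟩ _ _; simp only [mem_coe, mem_RE_true] at h; omega)
      (by rintro x y ⟨-, h⟩ _ _; simp only [mem_coe, mem_RE_false] at h; omega) hmono.symm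
      (by omega) (by omega)
    exact ⟨y1, y2, k1, k2, k3.mono (by rintro e ⟨⟨h7, -⟩, h8⟩; exact ⟨h7, h8⟩)⟩
  · apply h3
    obtain ⟨y1, y2, k1, k2, k3, -⟩ := sub_TB (a := z.1 - R) (b := z.1 + R) (c := z.2 + r)
      (d := z.2 + R) (by omega)
      (by rintro x y ⟨-, h⟩ _ _; simp only [mem_coe, mem_RE_false] at h; omega)
      (by rintro x y ⟨-, h⟩ _ _; simp only [mem_coe, mem_RE_true] at h; omega) hmono
      (by omega) (by omega)
    exact ⟨y1, y2, k1, k2, k3.mono (by rintro e ⟨⟨h7, -⟩, h8⟩; exact ⟨h7, h8⟩)⟩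
  · apply h4
    obtain ⟨y1, y2, k1, k2, k3, -⟩ := sub_TB (a := z.1 - R) (b := z.1 + R) (c := z.2 - R)
      (d := z.2 - r) (by omega)
      (by rintro x y ⟨-, h⟩ _ _; simp only [mem_coe, mem_RE_false] at h; omega)
      (by rintro x y ⟨-, h⟩ _ _; simp only [mem_coe, mem_RE_true] at h; omega) hmono.symm
      (by omega) (by omega)
    exact ⟨y1, y2, k1, k2, k3.mono (by rintro e ⟨⟨h7, -⟩, h8⟩; exact ⟨h7, h8⟩)⟩

/-- the two bars at height `k` -/
def bars (z : Vtx) (g s k : ℤ) : List (Finset Edg → Prop) :=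
  [TBc z.1 (z.1 + g) (z.2 + k * s) (z.2 + (k + 1) * s),
    TBc z.1 (z.1 + g) (z.2 - (k + 1) * s) (z.2 - k * s)]

/-- all crossings -/
def nevs (z : Vtx) (g s : ℕ) : List (Finset Edg → Prop) :=
  ann z (2 * s : ℕ) (4 * s : ℕ) ++ (ann z (20 * s : ℕ) (40 * s : ℕ) ++
    ([LRc z.1 (z.1 + g) (z.2 + 2 * s) (z.2 + 40 * s),
      LRc z.1 (z.1 + g) (z.2 - 40 * s) (z.2 - 2 * s)] ++
    (bars z g s (5 : ℕ) ++ (bars z g s (7 : ℕ) ++ (bars z g s (15 : ℕ) ++ bars z g s (17 : ℕ))))))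

lemma nice_of {z : Vtx} {g s : ℕ} (hs : 0 < s) {F : Finset Edg}
    (h : ∀ A ∈ nevs z g s, ¬ A F) : Nice z g s F := by
  simp only [nevs, List.forall_mem_append] at h
  obtain ⟨h1, h2, h3, h4, h5, h6, h7⟩ := h
  simp only [List.forall_mem_cons] at h3
  refine ⟨noX_of (by omega) h1, noX_of (by omega) h2, h3.1, h3.2.1, ?_⟩
  have key : ∀ k : ℕ, (∀ A ∈ bars z g s k, ¬ A F) →
      ¬ TBc z.1 (z.1 + g) (z.2 + k * s) (z.2 + (k + 1) * s) F ∧
      ¬ TBc z.1 (z.1 + g) (z.2 - (k + 1) * s) (z.2 - k * s) F := by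
    intro k hk
    simp only [bars, List.forall_mem_cons] at hk
    exact ⟨hk.1, hk.2.1⟩
  rintro k (rfl | rfl | rfl | rfl)
  · exact key _ h4
  · exact key _ h5
  · exact key _ h6
  · exact key _ h7

lemma nice_pr {K : ℕ} {c0 : ℝ} (hc0 : 0 < c0)
    (hK : ∀ w h : ℤ, 2 ≤ w → 0 ≤ h → h ≤ ((38 * K : ℕ) : ℤ) * w → c0 ≤ 1 - hh (1/2) w h)
    (z : Vtx) (g s : ℕ) (hg : 2 ≤ g) (hK64 : 64 ≤ K) (hs : s = K * g) (S : Finset Edg) :
    c0 ^ 18 ≤ Pr ph S (Nice z g s) := by
  have hgz : (2 : ℤ) ≤ g := by exact_mod_cast hg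
  have hKz : (64 : ℤ) ≤ K := by exact_mod_cast hK64
  have hsz : (s : ℤ) = K * g := by rw [hs]; push_cast; ring
  have hs64 : 64 * (g : ℤ) ≤ s := by rw [hsz]; nlinarith
  have hs0 : 0 < s := by omega
  have h38 : (38 * 64 : ℤ) ≤ ((38 * K : ℕ) : ℤ) := by push_cast; omega
  have hbig : ∀ w h : ℤ, 0 ≤ w → h ≤ 38 * 64 * w → h ≤ ((38 * K : ℕ) : ℤ) * w := by
    intro w h hw hh
    exact hh.trans (mul_le_mul_of_nonneg_right h38 hw)
  have hann : ∀ r R : ℕ, r + 2 ≤ R → 2 * (r : ℤ) ≤ R → ∀ A ∈ ann z r R,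
      IncrE S A ∧ c0 ≤ 1 - Pr ph S A := by
    intro r R h1 h2
    simp only [ann, List.forall_mem_cons]
    refine ⟨?_, ?_, ?_, ?_, fun A hA => absurd hA List.not_mem_nil⟩
    · exact lr_good S hK (by omega) (by omega) (hbig _ _ (by omega) (by omega))
    · exact lr_good S hK (by omega) (by omega) (hbig _ _ (by omega) (by omega))
    · exact tb_good S hK (by omega) (by omega) (hbig _ _ (by omega) (by omega))
    · exact tb_good S hK (by omega) (by omega) (hbig _ _ (by omega) (by omega))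
  have hbars : ∀ k : ℕ, ∀ A ∈ bars z g s k, IncrE S A ∧ c0 ≤ 1 - Pr ph S A := by
    intro k
    simp only [bars, List.forall_mem_cons]
    refine ⟨?_, ?_, fun A hA => absurd hA List.not_mem_nil⟩
    · refine tb_good S hK ?_ (by omega) (hbig _ _ ?_ ?_)
      · have : (z.2 + ((k : ℕ) + 1) * s - (z.2 + (k : ℕ) * s) : ℤ) = s := by ring
        rw [this]; omega
      · have : (z.2 + ((k : ℕ) + 1) * s - (z.2 + (k : ℕ) * s) : ℤ) = s := by ring
        rw [this]; omega
      · have : (z.2 + ((k : ℕ) + 1) * s - (z.2 + (k : ℕ) * s) : ℤ) = s := by ring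
        rw [this]; omega
    · refine tb_good S hK ?_ (by omega) (hbig _ _ ?_ ?_)
      · have : (z.2 - (k : ℕ) * s - (z.2 - ((k : ℕ) + 1) * s) : ℤ) = s := by ring
        rw [this]; omega
      · have : (z.2 - (k : ℕ) * s - (z.2 - ((k : ℕ) + 1) * s) : ℤ) = s := by ring
        rw [this]; omega
      · have : (z.2 - (k : ℕ) * s - (z.2 - ((k : ℕ) + 1) * s) : ℤ) = s := by ring
        rw [this]; omega
  have hall := harris_dec S c0 hc0.le (nevs z g s) (by
    simp only [nevs, List.forall_mem_append]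
    refine ⟨hann _ _ (by omega) (by push_cast; omega), hann _ _ (by omega) (by push_cast; omega),
      ?_, hbars _, hbars _, hbars _, hbars _⟩
    simp only [List.forall_mem_cons]
    refine ⟨?_, ?_, fun A hA => absurd hA List.not_mem_nil⟩
    · refine lr_good S hK (by omega) (by omega) ?_
      push_cast
      have : (z.2 + 40 * s - (z.2 + 2 * s) : ℤ) = 38 * (K * g) := by rw [hsz]; ring
      rw [this]
      have : (z.1 + g - z.1 : ℤ) = g := by ring
      rw [this]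
      exact le_of_eq (by ring)
    · refine lr_good S hK (by omega) (by omega) ?_
      push_cast
      have : (z.2 - 2 * s - (z.2 - 40 * s) : ℤ) = 38 * (K * g) := by rw [hsz]; ring
      rw [this]
      have : (z.1 + g - z.1 : ℤ) = g := by ring
      rw [this]
      exact le_of_eq (by ring))
  have hlen : (nevs z g s).length = 18 := rfl
  rw [hlen] at hall
  exact hall.trans (Pr_mono okh fun F _ h => nice_of hs0 h)

lemma noX_local {z : Vtx} {r R : ℕ} {M : Finset Edg} (hM : blk z R \ blk z r ⊆ M)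
    (F : Finset Edg) : NoX z r R F ↔ NoX z r R (F ∩ M) := by
  have h : (↑F ∩ ↑(blk z R \ blk z r) : Set Edg) = ↑(F ∩ M) ∩ ↑(blk z R \ blk z r) := by
    ext e
    simp only [Set.mem_inter_iff, mem_coe, Finset.mem_inter]
    constructor
    · rintro ⟨h1, h2⟩
      exact ⟨⟨h1, hM h2⟩, h2⟩
    · rintro ⟨⟨h1, -⟩, h2⟩
      exact ⟨h1, h2⟩
  unfold NoX
  rw [h]

lemma nice_local {z : Vtx} {g s : ℕ} (hgs : g ≤ s) (hs : 0 < s) (F : Finset Edg) :
    Nice z g s F ↔ Nice z g s (F ∩ (blk z (40 * s) \ blk z s)) := by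
  have hblk : ∀ r R : ℕ, s ≤ r → R ≤ 40 * s →
      blk z R \ blk z r ⊆ blk z (40 * s) \ blk z s := by
    intro r R h1 h2
    apply Finset.sdiff_subset_sdiff
    · unfold blk; apply RE_subset <;> push_cast <;> omega
    · unfold blk; apply RE_subset <;> push_cast <;> omega
  unfold Nice
  rw [← noX_local (hblk _ _ (by omega) (by omega)), ← noX_local (hblk _ _ (by omega) (by omega))]
  have hT : ∀ c d : ℤ, (z.2 + s < c ∨ d < z.2 - s) → z.2 - 40 * s ≤ c → d ≤ z.2 + 40 * s →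
      RE z.1 (z.1 + g) c d ⊆ blk z (40 * s) \ blk z s := by
    intro c d h1 h2 h3
    rintro ⟨x, y, _ | _⟩ h
    · simp only [blk, mem_RE_false, Finset.mem_sdiff] at h ⊢; push_cast; omega
    · simp only [blk, mem_RE_true, Finset.mem_sdiff] at h ⊢; push_cast; omega
  rw [← LRc_local (LRE_subset_RE.trans (hT _ _ (by omega) (by omega) (by omega))),
    ← LRc_local (LRE_subset_RE.trans (hT _ _ (by omega) (by omega) (by omega)))]
  have hb : ∀ k : ℕ, k = 5 ∨ k = 7 ∨ k = 15 ∨ k = 17 →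
      ((¬ TBc z.1 (z.1 + g) (z.2 + k * s) (z.2 + (k + 1) * s) F ∧
      ¬ TBc z.1 (z.1 + g) (z.2 - (k + 1) * s) (z.2 - k * s) F) ↔
      (¬ TBc z.1 (z.1 + g) (z.2 + k * s) (z.2 + (k + 1) * s) (F ∩ (blk z (40 * s) \ blk z s)) ∧
      ¬ TBc z.1 (z.1 + g) (z.2 - (k + 1) * s) (z.2 - k * s)
        (F ∩ (blk z (40 * s) \ blk z s)))) := by
    intro k hk
    have e1 : (k : ℤ) * s ≥ 5 * s := by
      apply mul_le_mul_of_nonneg_right _ (by omega)
      rcases hk with rfl | rfl | rfl | rfl <;> norm_num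
    have e2 : ((k : ℤ) + 1) * s ≤ 18 * s := by
      apply mul_le_mul_of_nonneg_right _ (by omega)
      rcases hk with rfl | rfl | rfl | rfl <;> norm_num
    have e3 : ((k : ℤ) + 1) * s = k * s + s := by ring
    rw [← TBc_local (TBE_subset_RE.trans (hT _ _ (by omega) (by omega) (by omega))),
      ← TBc_local (TBE_subset_RE.trans (hT _ _ (by omega) (by omega) (by omega)))]
  have hb' : (∀ k : ℕ, k = 5 ∨ k = 7 ∨ k = 15 ∨ k = 17 →
      ¬ TBc z.1 (z.1 + g) (z.2 + k * s) (z.2 + (k + 1) * s) F ∧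
      ¬ TBc z.1 (z.1 + g) (z.2 - (k + 1) * s) (z.2 - k * s) F) ↔
      (∀ k : ℕ, k = 5 ∨ k = 7 ∨ k = 15 ∨ k = 17 →
      ¬ TBc z.1 (z.1 + g) (z.2 + k * s) (z.2 + (k + 1) * s) (F ∩ (blk z (40 * s) \ blk z s)) ∧
      ¬ TBc z.1 (z.1 + g) (z.2 - (k + 1) * s) (z.2 - k * s)
        (F ∩ (blk z (40 * s) \ blk z s))) := forall₂_congr hb
  rw [hb']

theorem s_nice (h : S_RSWD) : S_NICE := by
  intro K hK64 η J hη
  obtain ⟨c0, hc0, hK⟩ := h (38 * K) (by omega)
  have hc1 : c0 ^ 18 ≤ 1 := by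
    have h1 := nice_pr hc0 hK (0, 0) 2 (K * 2) (le_refl _) hK64 rfl ∅
    exact h1.trans (Pr_le_one okh _ _)
  have hcp : 0 < c0 ^ 18 := by positivity
  obtain ⟨c, hc⟩ : ∃ c, c = c0 ^ 18 := ⟨_, rfl⟩
  rw [← hc] at hc1 hcp
  obtain ⟨L, hL⟩ := exists_pow_lt_of_lt_one (show 0 < η / (J + 1) by positivity)
    (show 1 - c < 1 by linarith)
  refine ⟨L + 1, by omega, fun g0 z S hg0 hS => ?_⟩
  have hpow : (1 - c) ^ (L + 1) ≤ η / (J + 1) := by
    rw [pow_succ]
    have : (1 - c) ^ L * (1 - c) ≤ (1 - c) ^ L * 1 :=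
      mul_le_mul_of_nonneg_left (by linarith) (pow_nonneg (by linarith) _)
    linarith
  -- scales
  have hsc : ∀ i j : ℕ, i ≤ j → g0 * 64 ^ i ≤ g0 * 64 ^ j := fun i j hij =>
    Nat.mul_le_mul_left _ (Nat.pow_le_pow_right (by norm_num) hij)
  have hblk : ∀ a b : ℕ, a ≤ b → blk z a ⊆ blk z b := by
    intro a b hab
    unfold blk; apply RE_subset <;> omega
  have hone : ∀ b < J, Pr ph S (fun G => ∀ l < L + 1,
      ¬ Nice z (g0 * 64 ^ (b * (L + 1) + l)) (K * (g0 * 64 ^ (b * (L + 1) + l))) G) ≤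
      η / (J + 1) := by
    intro b hb
    have hlt : ∀ l < L + 1, b * (L + 1) + l < J * (L + 1) := by
      intro l hl
      have : (b + 1) * (L + 1) ≤ J * (L + 1) := Nat.mul_le_mul_right _ hb
      have : (b + 1) * (L + 1) = b * (L + 1) + (L + 1) := by ring
      omega
    have := s_ite S (L + 1)
      (fun l => blk z (40 * (K * (g0 * 64 ^ (b * (L + 1) + l)))) \
        blk z (K * (g0 * 64 ^ (b * (L + 1) + l)))) (fun _ => True)
      (fun l => Nice z (g0 * 64 ^ (b * (L + 1) + l)) (K * (g0 * 64 ^ (b * (L + 1) + l))))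
      c hcp.le hc1 ?_ ?_ ?_ ?_
    · refine le_trans ?_ (this.trans ?_)
      · exact Pr_mono okh fun F _ h => ⟨trivial, h⟩
      · rw [Pr_true _ (fun _ _ => trivial), mul_one]
        exact hpow
    · intro l hl
      refine Finset.sdiff_subset.trans ((hblk _ _ ?_).trans hS)
      exact Nat.mul_le_mul_left _ (Nat.mul_le_mul_left _ (hsc _ _ (hlt l hl).le))
    · have hdis : ∀ i j : ℕ, i < j → Disjoint
          (blk z (40 * (K * (g0 * 64 ^ (b * (L + 1) + i)))) \
            blk z (K * (g0 * 64 ^ (b * (L + 1) + i))))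
          (blk z (40 * (K * (g0 * 64 ^ (b * (L + 1) + j)))) \
            blk z (K * (g0 * 64 ^ (b * (L + 1) + j)))) := by
        intro i j hij
        rw [Finset.disjoint_left]
        intro e he1 he2
        refine (Finset.mem_sdiff.mp he2).2 (hblk _ _ ?_ (Finset.mem_sdiff.mp he1).1)
        have h1 : g0 * 64 ^ (b * (L + 1) + (i + 1)) ≤ g0 * 64 ^ (b * (L + 1) + j) :=
          hsc _ _ (by omega)
        have h2 : g0 * 64 ^ (b * (L + 1) + (i + 1)) = 64 * (g0 * 64 ^ (b * (L + 1) + i)) := by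
          rw [← add_assoc, pow_succ]; ring
        calc 40 * (K * (g0 * 64 ^ (b * (L + 1) + i)))
            ≤ 64 * (K * (g0 * 64 ^ (b * (L + 1) + i))) := Nat.mul_le_mul_right _ (by norm_num)
          _ = K * (64 * (g0 * 64 ^ (b * (L + 1) + i))) := by ring
          _ ≤ _ := Nat.mul_le_mul_left _ (h2 ▸ h1)
      intro i _ j _ hij
      rcases lt_or_gt_of_ne hij with h | h
      · exact hdis i j h
      · exact (hdis j i h).symm
    · intro l _ F _
      refine nice_local ?_ ?_ F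
      · exact Nat.le_mul_of_pos_left _ (by omega)
      · have : 0 < g0 * 64 ^ (b * (L + 1) + l) := by positivity
        positivity
    · intro l _ H _
      rw [Pr_true _ (fun _ _ => trivial), mul_one]
      have h2 : 2 ≤ g0 * 64 ^ (b * (L + 1) + l) := hg0.trans (Nat.le_mul_of_pos_right _ (by positivity))
      have := nice_pr hc0 hK z (g0 * 64 ^ (b * (L + 1) + l)) _ h2 hK64 rfl
        (blk z (40 * (K * (g0 * 64 ^ (b * (L + 1) + l)))) \
          blk z (K * (g0 * 64 ^ (b * (L + 1) + l))))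
      rw [hc]
      exact this.trans (Pr_mono okh fun F _ h => ⟨trivial, h⟩)
  have hun := Pr_exists_le okh S (Finset.range J) (fun b G => ∀ l < L + 1,
      ¬ Nice z (g0 * 64 ^ (b * (L + 1) + l)) (K * (g0 * 64 ^ (b * (L + 1) + l))) G)
  calc _ ≤ Pr ph S (fun F => ∃ j ∈ Finset.range J, ∀ l < L + 1,
      ¬ Nice z (g0 * 64 ^ (j * (L + 1) + l)) (K * (g0 * 64 ^ (j * (L + 1) + l))) F) := by
        refine Pr_mono okh fun F _ h => ?_
        obtain ⟨b, hb, h⟩ := h
        exact ⟨b, Finset.mem_range.mpr hb, h⟩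
    _ ≤ _ := hun
    _ ≤ ∑ _b ∈ Finset.range J, η / (J + 1) :=
        Finset.sum_le_sum fun b hb => hone b (Finset.mem_range.mp hb)
    _ = J * (η / (J + 1)) := by rw [Finset.sum_const, Finset.card_range, nsmul_eq_mul]
    _ ≤ η := by
        rw [mul_div_assoc', div_le_iff₀ (by positivity)]
        nlinarith

end Pool.Agent.W2helper82.OA.P4
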