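import Pool.Agent.W2helper93.OA.P14

/-!
# Piece P5b: exploration of the clusters of the smaller vertices and of the cluster of `z`
-/

set_option autoImplicit false

namespace Pool.Agent.W2helper82.OA.P5b

open H974 H12S Finset H984P H984N
open Pool.Agent.W2helper82.OA
open Pool.Agent.W2helper82.OA.P14 (reach_restrict mem_RE_iff)

lemma mem_RV {N : ℕ} {z : Vtx} {F : Finset Edg} {e : Edg} :
    e ∈ RV N z F ↔ e ∈ RE 0 N 0 N ∧ (src e ∈ AA N z F ∨ tgt e ∈ AA N z F) := by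
  unfold RV
  simp only [Finset.mem_filter]

lemma touch {C : Set Vtx} {e : Edg} {a b : Vtx}
    (hc : (src e = a ∧ tgt e = b) ∨ (src e = b ∧ tgt e = a)) (ha : a ∈ C) :
    src e ∈ C ∨ tgt e ∈ C := by
  rcases hc with ⟨h1, -⟩ | ⟨-, h1⟩
  · left; rw [h1]; exact ha
  · right; rw [h1]; exact ha

lemma AA_step {N : ℕ} {z : Vtx} {F : Finset Edg} {e : Edg} (he : e ∈ F)
    (hb : e ∈ RE 0 N 0 N) {a b : Vtx}
    (hc : (src e = a ∧ tgt e = b) ∨ (src e = b ∧ tgt e = a)) (ha : a ∈ AA N z F) :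
    b ∈ AA N z F := by
  obtain ⟨l, h1, h2, h3⟩ := ha
  exact ⟨l, h1, h2, Reach.trans (Adj.reach (Adj.symm ⟨e, ⟨he, hb⟩, hc⟩)) h3⟩

lemma AA_self {N : ℕ} {z l : Vtx} {F : Finset Edg} (h1 : inR 0 N 0 N l) (h2 : Lx z l) :
    l ∈ AA N z F := ⟨l, h1, h2, Reach.refl _ _⟩

lemma AA_eq {N : ℕ} {z : Vtx} {F F' : Finset Edg} (h : F ∩ RV N z F = F' ∩ RV N z F) :
    AA N z F' = AA N z F := by
  ext a
  constructor
  · rintro ⟨l, h1, h2, h3⟩
    refine (reach_restrict (G := ↑F' ∩ ↑(RE 0 N 0 N)) (G' := ↑F ∩ ↑(RE 0 N 0 N))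
      (P := fun a => a ∈ AA N z F) h3.symm (AA_self h1 h2) ?_).2
    rintro e ⟨he, hb⟩ a b hc ha
    have h4 : e ∈ F' ∩ RV N z F := Finset.mem_inter.2 ⟨he, mem_RV.2 ⟨hb, touch hc ha⟩⟩
    rw [← h] at h4
    have h5 := (Finset.mem_inter.1 h4).1
    exact ⟨⟨h5, hb⟩, AA_step h5 hb hc ha⟩
  · rintro ⟨l, h1, h2, h3⟩
    refine ⟨l, h1, h2, Reach.symm ?_⟩
    refine (reach_restrict (G := ↑F ∩ ↑(RE 0 N 0 N)) (G' := ↑F' ∩ ↑(RE 0 N 0 N))
      (P := fun a => a ∈ AA N z F) h3.symm (AA_self h1 h2) ?_).1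
    rintro e ⟨he, hb⟩ a b hc ha
    have h4 : e ∈ F ∩ RV N z F := Finset.mem_inter.2 ⟨he, mem_RV.2 ⟨hb, touch hc ha⟩⟩
    rw [h] at h4
    exact ⟨⟨(Finset.mem_inter.1 h4).1, hb⟩, AA_step he hb hc ha⟩

lemma RV_eq {N : ℕ} {z : Vtx} {F F' : Finset Edg} (h : F ∩ RV N z F = F' ∩ RV N z F) :
    RV N z F' = RV N z F := by
  ext e
  rw [mem_RV, mem_RV, AA_eq h]

lemma sub_RE (N : ℕ) (z : Vtx) (F : Finset Edg) :
    GrV (ObS N z F)ᶜ ⊆ (↑(RE 0 N 0 N) : Set Edg) := by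
  rintro e ⟨h1, h2⟩
  rw [Finset.mem_coe, mem_RE_iff]
  unfold ObS at h1 h2
  simp only [Set.mem_compl_iff, Set.mem_setOf_eq, not_or, not_not] at h1 h2
  exact ⟨h1.2.1, h2.2.1⟩

lemma gr_eq (N : ℕ) (z : Vtx) (F G : Finset Edg) :
    (↑(G \ RV N z F) ∩ GrV (ObS N z F)ᶜ : Set Edg) = ↑G ∩ GrV (ObS N z F)ᶜ := by
  ext e
  simp only [Finset.coe_sdiff, Set.mem_inter_iff, Set.mem_diff, Finset.mem_coe]
  constructor
  · rintro ⟨⟨h1, -⟩, h2⟩
    exact ⟨h1, h2⟩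
  · rintro ⟨h1, h2⟩
    refine ⟨⟨h1, ?_⟩, h2⟩
    rw [mem_RV]
    rintro ⟨-, h3 | h3⟩
    · exact h2.1 (Or.inl h3)
    · exact h2.2 (Or.inl h3)

lemma not_Lx_self (z : Vtx) : ¬ Lx z z := by
  unfold Lx; omega

lemma reachC {N : ℕ} {z : Vtx} {F : Finset Edg} (hz : inR 0 N 0 N z) (hA : z ∉ AA N z F)
    (u : Vtx) : Reach (↑F ∩ ↑(RE 0 N 0 N)) z u ↔
      Reach (↑(F \ RV N z F) ∩ GrV (ObS N z F)ᶜ) z u := by
  constructor
  · intro hr
    refine (reach_restrict (P := fun u => u ∉ AA N z F ∧ inR 0 N 0 N u ∧ ¬ Lx z u) hr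
      ⟨hA, hz, not_Lx_self z⟩ ?_).1
    rintro e ⟨he, hb⟩ a b hc ⟨ha1, ha2, ha3⟩
    have hb1 : b ∉ AA N z F := fun h => ha1 (AA_step he hb (by
      rcases hc with h | h
      · exact Or.inr h
      · exact Or.inl h) h)
    have hb2 : inR 0 N 0 N b := by
      have h1 := mem_RE_iff.1 hb
      rcases hc with ⟨-, h⟩ | ⟨h, -⟩
      · rw [← h]; exact h1.2
      · rw [← h]; exact h1.1
    have hb3 : ¬ Lx z b := fun h => hb1 (AA_self hb2 h)
    have hPa : a ∈ (ObS N z F)ᶜ := by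
      rintro (h | h | h)
      · exact ha1 h
      · exact h ha2
      · exact ha3 h
    have hPb : b ∈ (ObS N z F)ᶜ := by
      rintro (h | h | h)
      · exact hb1 h
      · exact h hb2
      · exact hb3 h
    have hg : e ∈ GrV (ObS N z F)ᶜ := by
      rcases hc with ⟨h, h'⟩ | ⟨h, h'⟩
      · constructor
        · rw [h]; exact hPa
        · rw [h']; exact hPb
      · constructor
        · rw [h]; exact hPb
        · rw [h']; exact hPa
    refine ⟨?_, hb1, hb2, hb3⟩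
    rw [gr_eq]
    exact ⟨he, hg⟩
  · intro hr
    rw [gr_eq] at hr
    refine hr.mono ?_
    rintro e ⟨he1, he2⟩
    exact ⟨he1, sub_RE N z F he2⟩

open Classical in
/-- the edges of the box which touch the cluster of `z` -/
noncomputable def RC (N : ℕ) (z : Vtx) (F : Finset Edg) : Finset Edg :=
  (RE 0 N 0 N).filter (fun e => src e ∈ Clu N z F ∨ tgt e ∈ Clu N z F)

lemma mem_RC {N : ℕ} {z : Vtx} {F : Finset Edg} {e : Edg} :
    e ∈ RC N z F ↔ e ∈ RE 0 N 0 N ∧ (src e ∈ Clu N z F ∨ tgt e ∈ Clu N z F) := by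
  unfold RC
  simp only [Finset.mem_filter]

lemma Clu_step {N : ℕ} {z : Vtx} {F : Finset Edg} {e : Edg} (he : e ∈ F)
    (hb : e ∈ RE 0 N 0 N) {a b : Vtx}
    (hc : (src e = a ∧ tgt e = b) ∨ (src e = b ∧ tgt e = a)) (ha : a ∈ Clu N z F) :
    b ∈ Clu N z F := Reach.trans ha (Adj.reach ⟨e, ⟨he, hb⟩, hc⟩)

lemma Clu_eq {N : ℕ} {z : Vtx} {F F' : Finset Edg} (h : F ∩ RC N z F = F' ∩ RC N z F) :
    Clu N z F' = Clu N z F := by
  have hz : z ∈ Clu N z F := Reach.refl _ _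
  ext a
  constructor
  · intro h3
    refine (reach_restrict (G := ↑F' ∩ ↑(RE 0 N 0 N)) (G' := ↑F ∩ ↑(RE 0 N 0 N))
      (P := fun a => a ∈ Clu N z F) h3 hz ?_).2
    rintro e ⟨he, hb⟩ a b hc ha
    have h4 : e ∈ F' ∩ RC N z F := Finset.mem_inter.2 ⟨he, mem_RC.2 ⟨hb, touch hc ha⟩⟩
    rw [← h] at h4
    have h5 := (Finset.mem_inter.1 h4).1
    exact ⟨⟨h5, hb⟩, Clu_step h5 hb hc ha⟩
  · intro h3
    refine (reach_restrict (G := ↑F ∩ ↑(RE 0 N 0 N)) (G' := ↑F' ∩ ↑(RE 0 N 0 N))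
      (P := fun a => a ∈ Clu N z F) h3 hz ?_).1
    rintro e ⟨he, hb⟩ a b hc ha
    have h4 : e ∈ F ∩ RC N z F := Finset.mem_inter.2 ⟨he, mem_RC.2 ⟨hb, touch hc ha⟩⟩
    rw [h] at h4
    exact ⟨⟨(Finset.mem_inter.1 h4).1, hb⟩, Clu_step he hb hc ha⟩

lemma Ez_iff {N m : ℕ} {z : Vtx} {F : Finset Edg} : Ez N m z F ↔ inR 0 N 0 N z ∧
    (∀ u ∈ Clu N z F, ¬ Lx z u) ∧ ∃ w ∈ Clu N z F, z.1 + m ≤ w.1 := by
  constructor
  · rintro ⟨h1, h2, w, h3, h4⟩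
    exact ⟨h1, h2, w, h4, h3⟩
  · rintro ⟨h1, h2, w, h3, h4⟩
    exact ⟨h1, h2, w, h4, h3⟩

theorem expOk : ExpOk where
  rv := fun N z F F' h => ⟨RV_eq h, AA_eq h⟩
  ez := by
    intro N m z F
    constructor
    · rintro ⟨h1, h2, w, h3, h4⟩
      have hA : z ∉ AA N z F := by
        rintro ⟨l, _, hl2, hl3⟩
        exact h2 l hl3 hl2
      exact ⟨h1, hA, w, h3, (reachC h1 hA w).1 h4⟩
    · rintro ⟨h1, hA, w, h3, h4⟩
      refine ⟨h1, fun u hu hL => ?_, w, h3, (reachC h1 hA w).2 h4⟩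
      have hin : inR 0 N 0 N u := by
        refine (reach_restrict (G := ↑F ∩ ↑(RE 0 N 0 N)) (G' := ↑F ∩ ↑(RE 0 N 0 N))
          (P := fun u => inR 0 N 0 N u) hu h1 ?_).2
        rintro e ⟨he, hb⟩ a b hc -
        refine ⟨⟨he, hb⟩, ?_⟩
        have h1 := mem_RE_iff.1 hb
        rcases hc with ⟨-, h⟩ | ⟨h, -⟩
        · rw [← h]; exact h1.2
        · rw [← h]; exact h1.1
      exact hA ⟨u, hin, hL, hu⟩
  cl := by
    intro N z F h1 hA
    ext u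
    exact reachC h1 hA u
  gr := gr_eq
  sub := sub_RE
  fst := by
    intro N m z
    refine ⟨RC N z, fun F e he => (mem_RC.1 he).1, ?_, ?_, ?_⟩
    · intro F F' h
      ext e
      rw [mem_RC, mem_RC, Clu_eq h]
    · intro F F' h
      rw [Ez_iff, Ez_iff, Clu_eq h]
    · intro F hE e he
      rw [Finset.mem_inter, mem_RV] at he
      obtain ⟨he1, he2, he3⟩ := he
      rw [Finset.mem_sdiff, mem_RC]
      refine ⟨he1, ?_⟩
      rintro ⟨-, h⟩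
      -- `z` is joined to `AA`
      have key : ∀ p ∈ Clu N z F, p ∉ AA N z F := by
        rintro p hp ⟨l, -, hl2, hl3⟩
        exact hE.2.1 l (Reach.trans hp hl3) hl2
      rcases h with h | h
      · have h' : tgt e ∈ Clu N z F := Clu_step he1 he2 (Or.inl ⟨rfl, rfl⟩) h
        rcases he3 with h3 | h3
        · exact key _ h h3
        · exact key _ h' h3
      · have h' : src e ∈ Clu N z F := Clu_step he1 he2 (Or.inr ⟨rfl, rfl⟩) h
        rcases he3 with h3 | h3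
        · exact key _ h' h3
        · exact key _ h h3

end Pool.Agent.W2helper82.OA.P5b
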