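import Pool.Agent.W2helper82.OA.Stm

/-!
# Piece P14: resampling outside of a cluster
-/

set_option autoImplicit false

namespace Pool.Agent.W2helper82.OA.P14

open H974 H12S Finset H984P H984N
open Pool.Agent.Y989.FR (Awy AE)
open Pool.Agent.W2helper82.OA

/-- transport of a path which stays in a set of vertices -/
lemma reach_restrict {G G' : Set Edg} {P : Vtx → Prop} {u v : Vtx} (h : Reach G u v) (hu : P u)
    (hstep : ∀ e ∈ G, ∀ a b, ((src e = a ∧ tgt e = b) ∨ (src e = b ∧ tgt e = a)) → P a →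
      e ∈ G' ∧ P b) : Reach G' u v ∧ P v := by
  induction h with
  | refl => exact ⟨Reach.refl _ _, hu⟩
  | @tail b c _ hs ih =>
    obtain ⟨e, he, hc⟩ := hs
    obtain ⟨h1, h2⟩ := hstep e he b c hc ih.2
    exact ⟨ih.1.trans (Adj.reach ⟨e, h1, hc⟩), h2⟩

lemma mem_RE_iff {a b c d : ℤ} {e : Edg} :
    e ∈ RE a b c d ↔ inR a b c d (src e) ∧ inR a b c d (tgt e) := by
  obtain ⟨x, y, t⟩ := e
  cases t
  · simp only [mem_RE_false, src_mk, tgt_false, inR]; omega
  · simp only [mem_RE_true, src_mk, tgt_true, inR]; omega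

/-- the explored edges -/
lemma mem_RK {s : ℕ} {v : Vtx} {F : Finset Edg} {e : Edg} :
    e ∈ RK s v F ↔ e ∈ blk v (128 * s) ∧ (src e ∈ KH s v F ∨ tgt e ∈ KH s v F) := by
  unfold RK
  simp only [Finset.mem_filter]

lemma v_mem (s : ℕ) (v : Vtx) (F : Finset Edg) : v ∈ KH s v F := Reach.refl _ _

/-- one step -/
lemma KH_step {s : ℕ} {v : Vtx} {F : Finset Edg} {e : Edg} (he : e ∈ F)
    (hb : e ∈ blk v (128 * s)) {a b : Vtx}
    (hc : (src e = a ∧ tgt e = b) ∨ (src e = b ∧ tgt e = a)) (ha : a ∈ KH s v F) :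
    b ∈ KH s v F :=
  Reach.trans ha (Adj.reach ⟨e, ⟨he, hb⟩, hc⟩)

/-- configurations which agree on the explored edges have the same connections in `T ⊆ blk` -/
lemma same_reach {s : ℕ} {v : Vtx} {F F' T : Finset Edg} (hT : T ⊆ blk v (128 * s))
    (h : F ∩ RK s v F = F' ∩ RK s v F) (u : Vtx) :
    Reach (↑F ∩ ↑T) v u ↔ Reach (↑F' ∩ ↑T) v u := by
  constructor
  · intro hr
    refine (reach_restrict (P := fun a => a ∈ KH s v F) hr (v_mem s v F) ?_).1
    rintro e ⟨he, hb⟩ a b hc ha
    have hb' : e ∈ blk v (128 * s) := hT hb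
    refine ⟨⟨?_, hb⟩, KH_step he hb' hc ha⟩
    have h1 : e ∈ RK s v F := mem_RK.2 ⟨hb', by
      rcases hc with ⟨h1, -⟩ | ⟨-, h1⟩
      · left; rw [h1]; exact ha
      · right; rw [h1]; exact ha⟩
    have h2 : e ∈ F ∩ RK s v F := Finset.mem_inter.2 ⟨he, h1⟩
    rw [h] at h2
    exact (Finset.mem_inter.1 h2).1
  · intro hr
    refine (reach_restrict (P := fun a => a ∈ KH s v F) hr (v_mem s v F) ?_).1
    rintro e ⟨he, hb⟩ a b hc ha
    have hb' : e ∈ blk v (128 * s) := hT hb
    have h1 : e ∈ RK s v F := mem_RK.2 ⟨hb', by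
      rcases hc with ⟨h1, -⟩ | ⟨-, h1⟩
      · left; rw [h1]; exact ha
      · right; rw [h1]; exact ha⟩
    have h2 : e ∈ F' ∩ RK s v F := Finset.mem_inter.2 ⟨he, h1⟩
    rw [← h] at h2
    have h3 := (Finset.mem_inter.1 h2).1
    exact ⟨⟨h3, hb⟩, KH_step h3 hb' hc ha⟩

lemma same_KH {s : ℕ} {v : Vtx} {F F' : Finset Edg}
    (h : F ∩ RK s v F = F' ∩ RK s v F) : KH s v F' = KH s v F := by
  ext u
  exact (same_reach (le_refl _) h u).symm

lemma same_RK {s : ℕ} {v : Vtx} {F F' : Finset Edg}
    (h : F ∩ RK s v F = F' ∩ RK s v F) : RK s v F' = RK s v F := by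
  ext e
  rw [mem_RK, mem_RK, same_KH h]

lemma ctr_box {s : ℕ} {v : Vtx} (hv : v ∈ CtrS s) : inR 0 s 0 s v := by
  unfold CtrS BX at hv
  simp only [Finset.mem_filter, Finset.mem_product, Finset.mem_Icc] at hv
  exact ⟨hv.1.1, hv.1.2⟩

lemma box_sub {s : ℕ} {v : Vtx} (hv : v ∈ CtrS s) : RE 0 s 0 s ⊆ blk v (128 * s) := by
  obtain ⟨⟨h1, h2⟩, h3, h4⟩ := ctr_box hv
  unfold blk
  apply RE_subset <;> push_cast <;> omega

lemma same_Clu {s : ℕ} {v : Vtx} {F F' : Finset Edg} (hv : v ∈ CtrS s)
    (h : F ∩ RK s v F = F' ∩ RK s v F) : Clu s v F' = Clu s v F := by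
  ext u
  exact (same_reach (box_sub hv) h u).symm

/-- the resampled configuration -/
lemma F3_inter {s : ℕ} {v : Vtx} (F G : Finset Edg) :
    F ∩ RK s v F = ((F ∩ RK s v F) ∪ (G \ RK s v F)) ∩ RK s v F := by
  ext x; simp only [Finset.mem_inter, Finset.mem_union, Finset.mem_sdiff]; tauto

theorem condOk : CondOk where
  st := fun s v F F' h => ⟨same_RK h, same_KH h⟩
  bl := by
    intro g s c M B v F F' hv h hB
    have h1 := same_KH h
    have h2 := same_Clu hv h
    refine ⟨?_, ?_, ?_, ?_⟩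
    · rw [h2]; exact hB.el
    · rw [h1]; exact hB.far
    · rw [h1]; exact hB.pth
    · rw [h1]; exact hB.win
  main := by
    intro g s c M B v F G hg hgs hc1 hc2 hv hB hD
    set K := RK s v F with hK
    set F3 := (F ∩ K) ∪ (G \ K) with hF3
    have hsame : F ∩ RK s v F = F3 ∩ RK s v F := F3_inter F G
    have hKH : KH s v F3 = KH s v F := same_KH hsame
    have hbox := ctr_box hv
    have hsub := box_sub hv
    -- dangerous deep vertices are in `KH`
    have hdang : ∀ d, Dang (0, 0) s F3 d → Deep (0, 0) g s d → d ∈ KH s v F := by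
      intro d hd hdeep
      by_contra hcon
      obtain ⟨a, ha1, ha2, ha3⟩ := hd
      refine hD.nr d ⟨a, ha1, ha2, ?_⟩ hdeep
      refine (reach_restrict (P := fun a => a ∉ KH s v F) ha3 hcon ?_).1
      rintro e ⟨he, hb⟩ a b hc ha
      have hb' : e ∈ blk v (128 * s) := by
        apply hsub
        unfold B0 at hb
        have hb2 : e ∈ RE (0, 0).1 ((0, 0).1 + s) (0, 0).2 ((0, 0).2 + s) := hb
        simpa only [zero_add] using hb2
      have hbn : b ∉ KH s v F := by
        intro hbk
        apply ha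
        rw [← hKH] at hbk ⊢
        exact KH_step he hb' (hc.symm.imp (fun h => ⟨h.1, h.2⟩) (fun h => ⟨h.1, h.2⟩)) hbk
      refine ⟨⟨?_, hb⟩, hbn⟩
      have hek : e ∉ K := by
        rw [hK, mem_RK]
        rintro ⟨-, h | h⟩
        · rcases hc with ⟨h1, -⟩ | ⟨h1, -⟩
          · exact ha (h1 ▸ h)
          · exact hbn (h1 ▸ h)
        · rcases hc with ⟨-, h1⟩ | ⟨-, h1⟩
          · exact hbn (h1 ▸ h)
          · exact ha (h1 ▸ h)
      have he' : e ∈ (F ∩ K) ∪ (G \ K) := he
      rw [Finset.mem_union, Finset.mem_inter] at he'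
      rcases he' with h | h
      · exact absurd h.2 hek
      · exact h
    -- edges with both ends near the window are fresh
    have hfresh : ∀ e ∈ F3, AV (0, 0) g c (src e) → AV (0, 0) g c (tgt e) → e ∈ G \ K := by
      intro e he h1 h2
      have hek : e ∉ K := by
        rw [hK, mem_RK]
        rintro ⟨-, h | h⟩
        · exact hB.win _ h h1
        · exact hB.win _ h h2
      rw [hF3, Finset.mem_union, Finset.mem_inter] at he
      rcases he with h | h
      · exact absurd h.2 hek
      · exact h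
    refine ⟨?_, ?_, ?_⟩
    · rw [same_Clu hv hsame]
      exact hB.el
    · refine ⟨?_, ?_, ?_, ?_⟩
      · obtain ⟨x, hx, hr⟩ := hB.pth
        refine ⟨x, hx, ?_⟩
        have hr2 : Reach {e | e ∈ RE (2 * g) (s - 2 * g) (2 * g) (s - 2 * g) ∧ e ∉ blk v 2 ∧
            ∀ d, Dang (0, 0) s F3 d → Deep (0, 0) g s d →
              Awy M B (2 * s) v d (src e) ∧ Awy M B (2 * s) v d (tgt e)} x (2 * g, c) := by
          refine hr.mono ?_
          rintro e ⟨h1, h2, h3⟩
          exact ⟨h1, h2, fun d hd hdd => h3 d (hdang d hd hdd)⟩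
        simpa only [zero_add] using hr2
      · intro h
        apply hD.wu
        obtain ⟨x, x', h1, h2, h3⟩ := h
        simp only [zero_add, zero_sub] at h1 h2 h3
        refine ⟨x, x', ?_, ?_, ?_⟩
        · constructor <;> linarith [h1.1, h1.2]
        · constructor <;> linarith [h2.1, h2.2]
        · have e1 : (-(5 * (g : ℤ))) = -5 * g := by ring
          rw [e1] at h3
          refine h3.mono ?_
          rintro e ⟨he, hb⟩
          have hb' := mem_RE_iff.1 (TBE_subset_RE hb)
          refine ⟨hfresh e he ?_ ?_, hb⟩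
          · obtain ⟨⟨⟨a1, a2⟩, a3, a4⟩, -⟩ := hb'
            unfold AV inR
            simp only [zero_add, zero_sub]
            omega
          · obtain ⟨-, ⟨a1, a2⟩, a3, a4⟩ := hb'
            unfold AV inR
            simp only [zero_add, zero_sub]
            omega
      · intro h
        apply hD.wl
        obtain ⟨x, x', h1, h2, h3⟩ := h
        simp only [zero_add, zero_sub] at h1 h2 h3
        refine ⟨x, x', ?_, ?_, ?_⟩
        · constructor <;> linarith [h1.1, h1.2]
        · constructor <;> linarith [h2.1, h2.2]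
        · have e1 : (-(5 * (g : ℤ))) = -5 * g := by ring
          rw [e1] at h3
          refine h3.mono ?_
          rintro e ⟨he, hb⟩
          have hb' := mem_RE_iff.1 (TBE_subset_RE hb)
          refine ⟨hfresh e he ?_ ?_, hb⟩
          · obtain ⟨⟨⟨a1, a2⟩, a3, a4⟩, -⟩ := hb'
            unfold AV inR
            simp only [zero_add, zero_sub]
            omega
          · obtain ⟨-, ⟨a1, a2⟩, a3, a4⟩ := hb'
            unfold AV inR
            simp only [zero_add, zero_sub]
            omega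
      · intro d hd hdd hcon
        apply hB.win d (hdang d hd hdd)
        obtain ⟨⟨a1, a2⟩, a3, a4⟩ := hdd
        obtain ⟨b1, b2⟩ := hcon
        rw [abs_le] at b2
        simp only [zero_add] at a1 a2 a3 a4 b1 b2
        unfold AV inR
        simp only [zero_add, zero_sub]
        omega
    · obtain ⟨w, hw1, hw2⟩ := hB.far
      have hw2' : Reach (↑F ∩ ↑(blk v (128 * s))) v w := hw2
      obtain ⟨⟨h1, h2⟩, h3, h4⟩ := hbox
      obtain ⟨b1, b2, b3⟩ := hw1
      rw [abs_le] at b1 b2
      push_cast at b1 b2 b3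
      obtain ⟨w', k1, k2, k3⟩ := first_exit (a := -(g : ℤ)) (b := 2 * s) (c := -(s : ℤ))
        (d := 2 * s) (u := v) (v := w) (by unfold inR; omega) hw2' (by
          rcases b3 with b3 | b3
          · rcases abs_cases (w.1 - v.1) with ⟨h, -⟩ | ⟨h, -⟩ <;> omega
          · rcases abs_cases (w.2 - v.2) with ⟨h, -⟩ | ⟨h, -⟩ <;> omega)
      refine ⟨w', ?_, ?_, ?_⟩
      · simpa only [zero_add, zero_sub] using k1
      · simpa only [zero_add, zero_sub] using k2
      · have hr : Reach {e | e ∈ F3 ∧ e ∈ RE (-(g : ℤ)) (2 * s) (-(s : ℤ)) (2 * s) ∧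
            ¬ AV (0, 0) g c (src e) ∧ ¬ AV (0, 0) g c (tgt e)} v w' := by
          refine (reach_restrict (P := fun a => a ∈ KH s v F) k3 (v_mem s v F) ?_).1
          rintro e ⟨⟨he, hb⟩, hr⟩ a b hc ha
          have hbk : b ∈ KH s v F := KH_step he hb hc ha
          refine ⟨⟨?_, hr, ?_, ?_⟩, hbk⟩
          · rw [hF3, Finset.mem_union, Finset.mem_inter]
            left
            refine ⟨he, ?_⟩
            rw [hK, mem_RK]
            refine ⟨hb, ?_⟩
            rcases hc with ⟨h5, -⟩ | ⟨-, h5⟩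
            · left; rw [h5]; exact ha
            · right; rw [h5]; exact ha
          · apply hB.win
            rcases hc with ⟨h5, -⟩ | ⟨h5, -⟩
            · rw [h5]; exact ha
            · rw [h5]; exact hbk
          · apply hB.win
            rcases hc with ⟨-, h5⟩ | ⟨-, h5⟩
            · rw [h5]; exact hbk
            · rw [h5]; exact ha
        simpa only [zero_add, zero_sub] using hr

end Pool.Agent.W2helper82.OA.P14
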